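import Mathlib

set_option autoImplicit false

namespace Pool.Agent.Results.MP_2b20db_nt.Infinite

/-- differences of complementary divisors -/
def Dstar (n : ℕ) : Set ℤ := {d | ∃ a ∈ n.divisors, ∃ b ∈ n.divisors, a * b = n ∧ d = |(a : ℤ) - b|}

def Dplus (n : ℕ) : Set ℤ := {z | ∃ x ∈ Dstar n, ∃ y ∈ Dstar n, x ≠ 0 ∧ y ≠ 0 ∧ z = x + y}

def HasDelta (n : ℕ) : Prop := 1 ≤ n ∧ (Dstar n ∩ Dplus n).Nonempty

def Primitive (n : ℕ) : Prop :=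
  HasDelta n ∧ ¬ ∃ α m : ℕ, 2 ≤ α ∧ 2 ≤ m ∧ n = α ^ 2 * m ∧ HasDelta m

lemma mem_Dstar {n a b : ℕ} (hn : n ≠ 0) (h : a * b = n) (hab : b ≤ a) :
    ((a : ℤ) - b) ∈ Dstar n :=
  ⟨a, Nat.mem_divisors.2 ⟨⟨b, h.symm⟩, hn⟩, b, Nat.mem_divisors.2 ⟨⟨a, by rw [← h, mul_comm]⟩, hn⟩,
    h, (abs_of_nonneg (by omega)).symm⟩

lemma family (s A B C D : ℕ) (hs : 2 ≤ s) (hC : 0 < C) (hD : 0 < D) (h1 : C < A) (h2 : D < B)
    (e : (s : ℤ) ^ 2 * A ^ 2 * D ^ 2 - B ^ 2 * C ^ 2 =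
      (s ^ 2 * (A * B * C * D) - A * B * C * D) + (s * (A * B) ^ 2 - s * (C * D) ^ 2)) :
    HasDelta ((s * A * B * C * D) ^ 2) := by
  have hA : 0 < A := by omega
  have hB : 0 < B := by omega
  have hn : (s * A * B * C * D) ^ 2 ≠ 0 := by positivity
  have l1 : A * B * C * D < s ^ 2 * (A * B * C * D) :=
    lt_mul_of_one_lt_left (by positivity) (by nlinarith)
  have l2 : s * (C * D) ^ 2 < s * (A * B) ^ 2 :=
    Nat.mul_lt_mul_of_pos_left (Nat.pow_lt_pow_left (Nat.mul_lt_mul'' h1 h2) (by norm_num)) (by omega)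
  have l1' : ((A * B * C * D : ℕ) : ℤ) < (s ^ 2 * (A * B * C * D) : ℕ) := by exact_mod_cast l1
  have l2' : ((s * (C * D) ^ 2 : ℕ) : ℤ) < (s * (A * B) ^ 2 : ℕ) := by exact_mod_cast l2
  have l3 : ((B ^ 2 * C ^ 2 : ℕ) : ℤ) ≤ (s ^ 2 * A ^ 2 * D ^ 2 : ℕ) := by
    push_cast at *; linarith
  refine ⟨Nat.pos_of_ne_zero hn, _, mem_Dstar (a := s ^ 2 * A ^ 2 * D ^ 2) (b := B ^ 2 * C ^ 2) hn
    (by ring) (by exact_mod_cast l3), _, mem_Dstar hn (by ring) l1.le, _,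
    mem_Dstar hn (by ring) l2.le, by omega, by omega, ?_⟩
  push_cast
  exact e

lemma descent (k : ℕ) : HasDelta (k ^ 2) → ∃ j, j ∣ k ∧ Primitive (j ^ 2) := by
  induction k using Nat.strong_induction_on with
  | _ k ih =>
    intro h
    by_cases hp : Primitive (k ^ 2)
    · exact ⟨k, dvd_rfl, hp⟩
    · obtain ⟨α, m, h1, h2, h3, h4⟩ := not_not.1 (fun hn => hp ⟨h, hn⟩)
      obtain ⟨c, rfl⟩ : α ∣ k := (Nat.pow_dvd_pow_iff two_ne_zero).1 ⟨m, h3⟩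
      have hm : m = c ^ 2 := by
        rw [mul_pow] at h3
        exact (Nat.eq_of_mul_eq_mul_left (by positivity) h3).symm
      have hc : 0 < c := by
        rcases Nat.eq_zero_or_pos c with rfl | hc
        · omega
        · exact hc
      obtain ⟨j, hj, hj2⟩ := ih c (by nlinarith) (hm ▸ h4)
      exact ⟨j, hj.mul_left α, hj2⟩

lemma not_one : ¬ HasDelta 1 := by
  rintro ⟨-, z, -, x, ⟨a, ha, b, hb, -, rfl⟩, y, -, hx, -⟩
  simp only [Nat.divisors_one, Finset.mem_singleton] at ha hb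
  simp [ha, hb] at hx

theorem result : {k : ℕ | 1 ≤ k ∧ Primitive (k ^ 2)}.Infinite := by
  intro hfin
  obtain ⟨N, hN⟩ := hfin.bddAbove
  obtain ⟨y, hy2, hy⟩ : ∃ y : ℕ, 2 ≤ y ∧ ∀ j, 1 ≤ j → j ≤ N → j ∣ y :=
    ⟨2 * N.factorial, by have := N.factorial_pos; omega,
      fun j h1 h2 => (Nat.dvd_factorial h1 h2).mul_left 2⟩
  have hy3 : 4 * y ≤ y ^ 3 := by
    have : 2 ^ 2 ≤ y ^ 2 := Nat.pow_le_pow_left hy2 2
    calc 4 * y ≤ y ^ 2 * y := Nat.mul_le_mul_right _ this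
      _ = y ^ 3 := by ring
  obtain ⟨C, hC⟩ : ∃ C : ℕ, C + 2 * y + 1 = 2 * y ^ 3 := ⟨2 * y ^ 3 - 2 * y - 1, by omega⟩
  have hC' : (C : ℤ) = 2 * y ^ 3 - 2 * y - 1 := by
    have : ((C + 2 * y + 1 : ℕ) : ℤ) = (2 * y ^ 3 : ℕ) := by rw [hC]
    push_cast at this; linarith
  have hC0 : 0 < C := by omega
  have h := family (1 + 2 * y) (1 + 4 * y + 4 * y ^ 2 + 2 * y ^ 3) (1 + 4 * y + 6 * y ^ 2 + 2 * y ^ 3)
    C (1 + 2 * y + 2 * y ^ 2 + 2 * y ^ 3) (by omega) hC0 (by positivity) (by nlinarith)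
    (by nlinarith) (by push_cast; rw [hC']; ring)
  obtain ⟨j, hj, hp⟩ := descent _ h
  have hj0 : 1 ≤ j := by
    have := hp.1.1
    rcases Nat.eq_zero_or_pos j with rfl | h0
    · simp at this
    · exact h0
  obtain ⟨c, hc⟩ := hy j hj0 (hN ⟨hj0, hp⟩)
  have h1 : (j : ℤ) ∣ (((1 + 2 * y) * (1 + 4 * y + 4 * y ^ 2 + 2 * y ^ 3) *
      (1 + 4 * y + 6 * y ^ 2 + 2 * y ^ 3) * C * (1 + 2 * y + 2 * y ^ 2 + 2 * y ^ 3) : ℕ) : ℤ) := by
    exact_mod_cast hj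
  have h2 : (j : ZMod j) = 0 := ZMod.natCast_self j
  have h3 := (ZMod.intCast_zmod_eq_zero_iff_dvd _ j).2 h1
  have h4 : (y : ZMod j) = 0 := by rw [hc]; push_cast; rw [h2, zero_mul]
  push_cast at h3
  have h5 : (C : ZMod j) = -1 := by
    have := congrArg (fun z : ℤ => (z : ZMod j)) hC'
    simpa [h4] using this
  rw [h4, h5] at h3
  have h6 : ((1 : ℕ) : ZMod j) = 0 := by simpa using h3
  have h7 : j = 1 := Nat.dvd_one.1 ((ZMod.natCast_eq_zero_iff 1 j).1 h6)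
  rw [h7] at hp
  exact not_one (by simpa using hp.1)

end Pool.Agent.Results.MP_2b20db_nt.Infinite
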